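import Pool.Agent.Helper1.PD.Defs

/-! Typical numbers of odd steps, and the mass of bad residues (modules TYP and GDM). -/

namespace Pool.Agent.Helper3.PD

open Pool.Agent.Helper3.ND Pool.Agent.Helper3.TD Pool.Agent.Helper1.PD

theorem rpow_small400 {x : ℝ} (hx : 10 ^ 6 ≤ x) : x ^ (11 / 20 : ℝ) ≤ x / 400 := by
  have hx0 : 0 < x := by linarith
  have h1 : (400 : ℝ) ≤ x ^ (9 / 20 : ℝ) := by
    have e1 : (400 : ℝ) = ((400 : ℝ) ^ (20 : ℝ)) ^ (1 / 20 : ℝ) := by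
      rw [← Real.rpow_mul (by norm_num)]
      norm_num
    have e2 : x ^ (9 / 20 : ℝ) = (x ^ (9 : ℝ)) ^ (1 / 20 : ℝ) := by
      rw [← Real.rpow_mul hx0.le]
      norm_num
    rw [e1, e2]
    apply Real.rpow_le_rpow (by positivity) _ (by norm_num)
    have e3 : (400 : ℝ) ^ (20 : ℝ) = (400 : ℝ) ^ (20 : ℕ) := by
      rw [← Real.rpow_natCast]; norm_num
    have e4 : x ^ (9 : ℝ) = x ^ (9 : ℕ) := by
      rw [← Real.rpow_natCast]; norm_num
    rw [e3, e4]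
    calc (400 : ℝ) ^ (20 : ℕ) ≤ (10 ^ 6 : ℝ) ^ (9 : ℕ) := by norm_num
      _ ≤ x ^ (9 : ℕ) := pow_le_pow_left₀ (by norm_num) hx 9
  have h2 : x ^ (11 / 20 : ℝ) * x ^ (9 / 20 : ℝ) = x := by
    rw [← Real.rpow_add hx0]
    norm_num
  have h3 : 0 < x ^ (11 / 20 : ℝ) := Real.rpow_pos_of_pos hx0 _
  rw [le_div_iff₀ (by norm_num)]
  nlinarith

/-- module TYP, first part -/
theorem typ_J : ∃ R0 : ℕ, ∀ r, R0 ≤ r → ∀ k, TypK r k → Jt r k := by
  refine ⟨10 ^ 6, fun r hr k hk => ?_⟩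
  have hr' : (10 ^ 6 : ℝ) ≤ r := by exact_mod_cast hr
  have h1 := rpow_small400 hr'
  unfold TypK at hk
  rw [abs_le] at hk
  unfold Jt
  have a1 : (199 : ℝ) * r ≤ 400 * k := by linarith [hk.1]
  have a2 : (400 : ℝ) * k ≤ 201 * r := by linarith [hk.2]
  exact ⟨by exact_mod_cast a1, by exact_mod_cast a2⟩

theorem per_sum {K : ℕ} (S : Finset ℕ) (f : ℕ → ℤ → ℝ) (h : ∀ k ∈ S, Per K (f k)) : Per K (fun x => ∑ k ∈ S, f k x) := by
  intro x
  exact Finset.sum_congr rfl (fun k hk => h k hk x)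

/-- module TYP, second part -/
theorem fr_per : ∃ R0 : ℕ, ∀ r, R0 ≤ r → ∀ K, 201 * r ≤ 400 * K → Per K (fr r) := by
  obtain ⟨R0, h⟩ := typ_J
  refine ⟨R0, fun r hr K hK => ?_⟩
  have h1 : Per K (fun x => ∑ k ∈ KS r 0, D k r k (fun _ => True) x) := by
    apply per_sum
    intro k hk
    rw [mem_KS] at hk
    have h2 := (h r hr k hk.2.2).2
    exact (D_per k r k _).le (by omega)
  exact h1

theorem exp_tailq (q : ℕ) {t : ℝ} (ht : 1 ≤ t) : Real.exp (-(t ^ (1 / 10 : ℝ))) ≤ (Nat.factorial (10 * q) : ℝ) / t ^ q := by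
  have ht0 : 0 < t := by linarith
  have e4 := Real.pow_div_factorial_le_exp (t ^ (1 / 10 : ℝ)) (by positivity) (10 * q)
  have e5 : (t ^ (1 / 10 : ℝ)) ^ (10 * q) = t ^ q := by
    rw [← Real.rpow_natCast, ← Real.rpow_mul ht0.le]
    push_cast
    rw [show (1 / 10 : ℝ) * (10 * (q : ℝ)) = q by ring, Real.rpow_natCast]
  rw [e5] at e4
  rw [Real.exp_neg, le_div_iff₀ (by positivity), inv_mul_le_iff₀ (Real.exp_pos _)]
  rw [div_le_iff₀ (by positivity)] at e4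
  linarith

open Classical in
/-- module GDM: mass of the bad residues -/
theorem Gd_mass (q : ℕ) : ∃ C : ℝ, 0 < C ∧ ∃ R0 : ℕ, ∀ r s, R0 ≤ r → R0 ≤ s → ∀ A : ℝ, 1 ≤ A →
    (((Finset.range (2 ^ (r + s))).filter (fun y => ¬ Gd r s A y)).card : ℝ) / 2 ^ (r + s) ≤
      C / (r : ℝ) ^ q + C / (s : ℝ) ^ q + 11 / Real.sqrt A := by
  obtain ⟨R0, hJ⟩ := typ_J
  refine ⟨2 * (Nat.factorial (10 * q) : ℝ), by positivity, max R0 (10 ^ 3), fun r s hr hs A hA => ?_⟩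
  have hr3 : 10 ^ 3 ≤ r := le_trans (le_max_right _ _) hr
  have hs3 : 10 ^ 3 ≤ s := le_trans (le_max_right _ _) hs
  have hsR : R0 ≤ s := le_trans (le_max_left _ _) hs
  have hr1 : (1 : ℝ) ≤ r := by exact_mod_cast (by omega : 1 ≤ r)
  have hs1 : (1 : ℝ) ≤ s := by exact_mod_cast (by omega : 1 ≤ s)
  -- the three bad sets
  have tr : ∀ t : ℕ, 10 ^ 3 ≤ t → (((Finset.range (2 ^ t)).filter (fun x : ℕ => ¬ TypK t (od t (x : ℤ)))).card : ℝ) ≤
      2 ^ t * (2 * Real.exp (-((t : ℝ) ^ (1 / 10 : ℝ)))) := by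
    intro t ht
    have h1 := card_out (t := t) (m := 0) ht (by omega) ((Finset.range (t + 1)).filter (fun k => ¬ TypK t k)) (by
      intro k hk hc
      rw [Finset.mem_filter] at hk
      rw [mem_KS] at hc
      exact hk.2 hc.2.2)
    rw [div_le_iff₀ (by positivity)] at h1
    have h2 : ((Finset.range (2 ^ t)).filter (fun x : ℕ => ¬ TypK t (od t (x : ℤ)))) ⊆
        ((Finset.range (2 ^ t)).filter (fun r : ℕ => od t (r : ℤ) ∈ (Finset.range (t + 1)).filter (fun k => ¬ TypK t k))) := by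
      intro x hx
      rw [Finset.mem_filter] at hx ⊢
      refine ⟨hx.1, ?_⟩
      rw [Finset.mem_filter, Finset.mem_range]
      exact ⟨by have := od_le t (x : ℤ); omega, hx.2⟩
    have h3 : (((Finset.range (2 ^ t)).filter (fun x : ℕ => ¬ TypK t (od t (x : ℤ)))).card : ℝ) ≤
        (((Finset.range (2 ^ t)).filter (fun r : ℕ => od t (r : ℤ) ∈ (Finset.range (t + 1)).filter (fun k => ¬ TypK t k))).card : ℝ) := by
      exact_mod_cast Finset.card_le_card h2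
    linarith
  have h1 := tr r hr3
  have h2 := tr s hs3
  have h3 := card_cc s A (by linarith)
  -- split the count
  obtain ⟨P1, hP1⟩ : ∃ P : ℕ → Prop, P = fun x : ℕ => ¬ TypK r (od r (x : ℤ)) := ⟨_, rfl⟩
  obtain ⟨P2, hP2⟩ : ∃ P : ℕ → Prop, P = fun x : ℕ => ¬ TypK s (od s (x : ℤ)) := ⟨_, rfl⟩
  obtain ⟨P3, hP3⟩ : ∃ P : ℕ → Prop, P = fun y : ℕ => A * 2 ^ s ≤ (cc s (y : ℤ) : ℝ) := ⟨_, rfl⟩
  obtain ⟨ι, hι⟩ : ∃ ι : Prop → ℝ, ι = fun p => if p then (1 : ℝ) else 0 := ⟨_, rfl⟩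
  have ιn : ∀ p, 0 ≤ ι p := by
    intro p; rw [hι]; simp only; split_ifs <;> norm_num
  have ι1 : ∀ p, p → ι p = 1 := by
    intro p h; rw [hι]; simp only; rw [if_pos h]
  have ι0 : ∀ p, ¬ p → ι p = 0 := by
    intro p h; rw [hι]; simp only; rw [if_neg h]
  have hcard : ∀ (n : ℕ) (P : ℕ → Prop) [DecidablePred P], (((Finset.range n).filter P).card : ℝ) = ∑ x ∈ Finset.range n, ι (P x) := by
    intro n P _
    rw [Finset.card_filter]
    push_cast
    apply Finset.sum_congr rfl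
    intro x _
    by_cases h : P x
    · rw [ι1 _ h, if_pos h]
    · rw [ι0 _ h, if_neg h]
  have hsplit : (((Finset.range (2 ^ (r + s))).filter (fun y => ¬ Gd r s A y)).card : ℝ) ≤
      ∑ y ∈ Finset.range (2 ^ (r + s)), (ι (P1 (y % 2 ^ r)) + (ι (P2 (yy r s (y : ℤ))) + ι (P3 (yy r s (y : ℤ))))) := by
    rw [hcard]
    apply Finset.sum_le_sum
    intro y _
    have n1 := ιn (P1 (y % 2 ^ r))
    have n2 := ιn (P2 (yy r s (y : ℤ)))
    have n3 := ιn (P3 (yy r s (y : ℤ)))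
    by_cases hg : Gd r s A y
    · rw [ι0 _ (not_not.mpr hg)]
      linarith
    · rw [ι1 _ hg]
      unfold Gd at hg
      by_cases c1 : P1 (y % 2 ^ r)
      · rw [ι1 _ c1]
        linarith
      · by_cases c2 : P2 (yy r s (y : ℤ))
        · rw [ι1 _ c2]
          linarith
        · have c3 : P3 (yy r s (y : ℤ)) := by
            by_contra c3
            rw [hP1] at c1
            rw [hP2] at c2
            rw [hP3] at c3
            simp only [not_not] at c1 c2 c3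
            rw [← od_mod] at c1
            exact hg ⟨c1, hJ s hsR _ c2, (not_le.mp c3).le⟩
          rw [ι1 _ c3]
          linarith
  rw [sum_split r s (fun x z : ℕ => (ι (P1 x) + (ι (P2 z) + ι (P3 z))))] at hsplit
  have e1 : ∑ x ∈ Finset.range (2 ^ r), ∑ z ∈ Finset.range (2 ^ s), (ι (P1 x) + (ι (P2 z) + ι (P3 z))) =
      2 ^ s * (((Finset.range (2 ^ r)).filter (fun x : ℕ => ¬ TypK r (od r (x : ℤ)))).card : ℝ) +
      2 ^ r * ((((Finset.range (2 ^ s)).filter (fun x : ℕ => ¬ TypK s (od s (x : ℤ)))).card : ℝ) +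
        (((Finset.range (2 ^ s)).filter (fun y : ℕ => A * 2 ^ s ≤ (cc s (y : ℤ) : ℝ))).card : ℝ)) := by
    rw [hcard, hcard, hcard, hP1, hP2, hP3]
    simp only [Finset.sum_add_distrib, Finset.sum_const, Finset.card_range, nsmul_eq_mul]
    push_cast
    rw [← Finset.mul_sum]
    ring
  rw [e1] at hsplit
  have hpr : (0 : ℝ) < 2 ^ r := by positivity
  have hps : (0 : ℝ) < 2 ^ s := by positivity
  have t1 := exp_tailq q hr1
  have t2 := exp_tailq q hs1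
  rw [div_le_iff₀ (by positivity), show (2 : ℝ) ^ (r + s) = 2 ^ r * 2 ^ s from pow_add _ _ _]
  have b1 : 2 ^ s * (((Finset.range (2 ^ r)).filter (fun x : ℕ => ¬ TypK r (od r (x : ℤ)))).card : ℝ) ≤
      2 ^ s * (2 ^ r * (2 * ((Nat.factorial (10 * q) : ℝ) / (r : ℝ) ^ q))) := by
    apply mul_le_mul_of_nonneg_left _ hps.le
    refine le_trans h1 ?_
    gcongr
  have b2 : 2 ^ r * (((Finset.range (2 ^ s)).filter (fun x : ℕ => ¬ TypK s (od s (x : ℤ)))).card : ℝ) ≤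
      2 ^ r * (2 ^ s * (2 * ((Nat.factorial (10 * q) : ℝ) / (s : ℝ) ^ q))) := by
    apply mul_le_mul_of_nonneg_left _ hpr.le
    refine le_trans h2 ?_
    gcongr
  have b3 : 2 ^ r * (((Finset.range (2 ^ s)).filter (fun y : ℕ => A * 2 ^ s ≤ (cc s (y : ℤ) : ℝ))).card : ℝ) ≤
      2 ^ r * (11 * 2 ^ s / Real.sqrt A) := mul_le_mul_of_nonneg_left h3 hpr.le
  have e2 : (2 * (Nat.factorial (10 * q) : ℝ) / (r : ℝ) ^ q + 2 * (Nat.factorial (10 * q) : ℝ) / (s : ℝ) ^ q + 11 / Real.sqrt A) * (2 ^ r * 2 ^ s) =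
      2 ^ s * (2 ^ r * (2 * ((Nat.factorial (10 * q) : ℝ) / (r : ℝ) ^ q))) +
      2 ^ r * (2 ^ s * (2 * ((Nat.factorial (10 * q) : ℝ) / (s : ℝ) ^ q))) + 2 ^ r * (11 * 2 ^ s / Real.sqrt A) := by ring
  rw [e2]
  linarith

end Pool.Agent.Helper3.PD
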