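import Pool.Agent.Helper3.TD.Cls
import Pool.Agent.Helper3.TD.One

/-! From a uniform linear lower bound for odd predecessors to orbits, basins and natural densities (module TRANS). -/

namespace Pool.Agent.Helper3.PD

open Pool.Agent.Helper3.ND Pool.Agent.Helper3.TD Filter Topology

/-- uniform linear lower bound for the number of odd predecessors -/
def FINo : Prop := ∃ c : ℝ, 0 < c ∧ ∀ a : ℤ, a % 2 = 1 → ¬ (3 : ℤ) ∣ a → ∀ x : ℝ, |(a : ℝ)| ≤ x →
  c * x / |(a : ℝ)| ≤ (({N : ℤ | |(N : ℝ)| ≤ x ∧ N % 2 = 1 ∧ ∃ k : ℕ, T^[k] N = a}.ncard : ℕ) : ℝ)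

theorem fin_abs (P : ℤ → Prop) (x : ℝ) : {N : ℤ | |(N : ℝ)| ≤ x ∧ P N}.Finite := by
  apply Set.Finite.subset (Set.finite_Icc ⌈-x⌉ ⌊x⌋)
  rintro n ⟨h1, _⟩
  rw [abs_le] at h1
  exact ⟨Int.ceil_le.mpr h1.1, Int.le_floor.mpr h1.2⟩

theorem T_two (m : ℤ) : T (2 * m) = m := by
  have := T_even (show (2 * m) % 2 = 0 by omega)
  omega

theorem T_pow (e : ℕ) (m : ℤ) : T^[e] (2 ^ e * m) = m := by
  induction e with
  | zero => simp
  | succ e ih =>
    rw [Function.iterate_succ_apply, pow_succ, show (2 : ℤ) ^ e * 2 * m = 2 * (2 ^ e * m) by ring, T_two, ih]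

/-- an odd predecessor prime to three that is not much larger -/
theorem odd_pred {a : ℤ} (h3 : ¬ (3 : ℤ) ∣ a) : ∃ b : ℤ, ∃ e : ℕ, b % 2 = 1 ∧ ¬ (3 : ℤ) ∣ b ∧ T^[e] b = a ∧ |b| ≤ 22 * |a| := by
  have key : ∀ e : ℕ, e ≤ 5 → 2 ^ (e + 1) * a % 9 = 4 → ∃ b : ℤ, ∃ e : ℕ, b % 2 = 1 ∧ ¬ (3 : ℤ) ∣ b ∧ T^[e] b = a ∧ |b| ≤ 22 * |a| := by
    intro e he h9
    have e1 : (2 : ℤ) ^ (e + 1) * a = 2 * (2 ^ e * a) := by rw [pow_succ]; ring
    obtain ⟨b, hb⟩ : ∃ b : ℤ, 2 ^ (e + 1) * a = 3 * b + 1 := ⟨(2 ^ (e + 1) * a - 1) / 3, by omega⟩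
    have hb2 : b % 2 = 1 := by omega
    refine ⟨b, e + 1, hb2, by omega, ?_, ?_⟩
    · have h1 := T_odd hb2
      have h2 : T b = 2 ^ e * a := by omega
      rw [Function.iterate_succ_apply, h2, T_pow]
    · have h1 : |3 * b| ≤ 2 ^ (e + 1) * |a| + 1 := by
        have : 3 * b = 2 ^ (e + 1) * a - 1 := by omega
        rw [this]
        calc |2 ^ (e + 1) * a - 1| ≤ |2 ^ (e + 1) * a| + |(1 : ℤ)| := abs_sub _ _
          _ = _ := by rw [abs_mul, abs_of_pos (by positivity : (0 : ℤ) < 2 ^ (e + 1)), abs_one]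
      have h2 : (2 : ℤ) ^ (e + 1) ≤ 2 ^ 6 := pow_le_pow_right₀ (by norm_num) (by omega)
      have h3' : (1 : ℤ) ≤ |a| := Int.one_le_abs (by rintro rfl; exact h3 (dvd_zero _))
      rw [abs_mul, abs_of_pos (by norm_num : (0 : ℤ) < 3)] at h1
      have h4 : (2 : ℤ) ^ (e + 1) * |a| ≤ 2 ^ 6 * |a| := mul_le_mul_of_nonneg_right h2 (abs_nonneg _)
      omega
  have h9 : a % 9 = 1 ∨ a % 9 = 2 ∨ a % 9 = 4 ∨ a % 9 = 5 ∨ a % 9 = 7 ∨ a % 9 = 8 := by omega
  rcases h9 with h | h | h | h | h | h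
  · exact key 1 (by norm_num) (by norm_num; omega)
  · exact key 0 (by norm_num) (by norm_num; omega)
  · exact key 5 (by norm_num) (by norm_num; omega)
  · exact key 2 (by norm_num) (by norm_num; omega)
  · exact key 3 (by norm_num) (by norm_num; omega)
  · exact key 4 (by norm_num) (by norm_num; omega)

/-- all predecessors -/
theorem fin_all (h : FINo) : ∃ c : ℝ, 0 < c ∧ ∀ a : ℤ, ¬ (3 : ℤ) ∣ a → ∀ x : ℝ, |(a : ℝ)| ≤ x →
    c * x / |(a : ℝ)| ≤ (({N : ℤ | |(N : ℝ)| ≤ x ∧ ∃ k : ℕ, T^[k] N = a}.ncard : ℕ) : ℝ) := by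
  obtain ⟨c, hc, H⟩ := h
  refine ⟨min (c / 22) (1 / 22), by positivity, fun a h3 x hx => ?_⟩
  have ha0 : a ≠ 0 := by rintro rfl; exact h3 (dvd_zero _)
  have ha1 : (1 : ℝ) ≤ |(a : ℝ)| := by exact_mod_cast Int.one_le_abs ha0
  have hapos : 0 < |(a : ℝ)| := by linarith
  obtain ⟨b, e, hb1, hb2, hb3, hb4⟩ := odd_pred h3
  have hb4' : |(b : ℝ)| ≤ 22 * |(a : ℝ)| := by exact_mod_cast hb4
  have hb0 : b ≠ 0 := by rintro rfl; exact hb2 (dvd_zero _)
  have hbpos : 0 < |(b : ℝ)| := by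
    have : (1 : ℝ) ≤ |(b : ℝ)| := by exact_mod_cast Int.one_le_abs hb0
    linarith
  have hx0 : 0 ≤ x := by linarith
  by_cases hbx : |(b : ℝ)| ≤ x
  · have h1 := H b hb1 hb2 x hbx
    have h2 : {N : ℤ | |(N : ℝ)| ≤ x ∧ N % 2 = 1 ∧ ∃ k : ℕ, T^[k] N = b}.ncard ≤
        {N : ℤ | |(N : ℝ)| ≤ x ∧ ∃ k : ℕ, T^[k] N = a}.ncard := by
      apply Set.ncard_le_ncard _ (fin_abs _ x)
      rintro N ⟨a1, _, k, a3⟩
      exact ⟨a1, e + k, by rw [Function.iterate_add_apply, a3, hb3]⟩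
    have h2' : (({N : ℤ | |(N : ℝ)| ≤ x ∧ N % 2 = 1 ∧ ∃ k : ℕ, T^[k] N = b}.ncard : ℕ) : ℝ) ≤
        (({N : ℤ | |(N : ℝ)| ≤ x ∧ ∃ k : ℕ, T^[k] N = a}.ncard : ℕ) : ℝ) := by exact_mod_cast h2
    refine le_trans ?_ (le_trans h1 h2')
    rw [div_le_div_iff₀ hapos hbpos]
    have h4 : min (c / 22) (1 / 22) ≤ c / 22 := min_le_left _ _
    calc min (c / 22) (1 / 22) * x * |(b : ℝ)| ≤ (c / 22) * x * (22 * |(a : ℝ)|) := by gcongr
      _ = c * x * |(a : ℝ)| := by ring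
  · have h1 : 1 ≤ {N : ℤ | |(N : ℝ)| ≤ x ∧ ∃ k : ℕ, T^[k] N = a}.ncard := by
      exact (Set.ncard_pos (fin_abs _ x)).mpr ⟨a, hx, 0, rfl⟩
    have h1' : (1 : ℝ) ≤ (({N : ℤ | |(N : ℝ)| ≤ x ∧ ∃ k : ℕ, T^[k] N = a}.ncard : ℕ) : ℝ) := by exact_mod_cast h1
    refine le_trans ?_ h1'
    rw [div_le_one hapos]
    have h4 : min (c / 22) (1 / 22) ≤ 1 / 22 := min_le_right _ _
    have h5 : x ≤ 22 * |(a : ℝ)| := le_trans (not_le.mp hbx).le hb4'
    calc min (c / 22) (1 / 22) * x ≤ (1 / 22) * (22 * |(a : ℝ)|) := by gcongr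
      _ = |(a : ℝ)| := by ring

theorem T_neg {n : ℤ} (h : n < 0) : T n < 0 := by
  rcases par_cases n with h1 | h1
  · have := T_even h1; omega
  · have := T_odd h1; omega

theorem T_pos {n : ℤ} (h : 0 < n) : 0 < T n := by
  rcases par_cases n with h1 | h1
  · have := T_even h1; omega
  · have := T_odd h1; omega

theorem T_iter_neg (k : ℕ) : ∀ n : ℤ, n < 0 → T^[k] n < 0 := by
  induction k with
  | zero => intro n h; exact h
  | succ k ih => intro n h; rw [Function.iterate_succ_apply]; exact ih _ (T_neg h)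

theorem T_iter_pos (k : ℕ) : ∀ n : ℤ, 0 < n → 0 < T^[k] n := by
  induction k with
  | zero => intro n h; exact h
  | succ k ih => intro n h; rw [Function.iterate_succ_apply]; exact ih _ (T_pos h)

theorem T_iter_zero (k : ℕ) : T^[k] (0 : ℤ) = 0 := by
  induction k with
  | zero => rfl
  | succ k ih => rw [Function.iterate_succ_apply]; exact ih

/-- predecessors have the same sign -/
theorem sign_neg {k : ℕ} {N a : ℤ} (h : T^[k] N = a) (ha : a < 0) : N < 0 := by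
  rcases lt_trichotomy N 0 with h1 | h1 | h1
  · exact h1
  · rw [h1, T_iter_zero] at h; omega
  · have := T_iter_pos k N h1; omega

theorem sign_pos {k : ℕ} {N a : ℤ} (h : T^[k] N = a) (ha : 0 < a) : 0 < N := by
  rcases lt_trichotomy N 0 with h1 | h1 | h1
  · have := T_iter_neg k N h1; omega
  · rw [h1, T_iter_zero] at h; omega
  · exact h1

/-- from orbits of `T` to Syracuse orbits -/
theorem syr_of_T {a : ℤ} (ha : Odd a) : ∀ j : ℕ, ∀ N : ℤ, Odd N → T^[j] N = a → ∃ k, syr^[k] N = a := by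
  intro j
  induction j using Nat.strong_induction_on with
  | _ j ih =>
    intro N hN h
    rcases Nat.eq_zero_or_pos j with rfl | hj
    · exact ⟨0, h⟩
    · obtain ⟨v, hv, hodd⟩ := syr_spec hN
      have hT : T N = 2 ^ v * syr N := by
        have h1 := T_odd (Int.odd_iff.mp hN)
        rw [hv, pow_succ] at h1
        have : 2 * T N = 2 * (2 ^ v * syr N) := by rw [h1]; ring
        omega
      obtain ⟨i, rfl⟩ : ∃ i, j = i + 1 := ⟨j - 1, by omega⟩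
      rw [Function.iterate_succ_apply, hT] at h
      by_cases hiv : i < v
      · exfalso
        obtain ⟨d, rfl⟩ : ∃ d, v = i + (d + 1) := ⟨v - i - 1, by omega⟩
        rw [pow_add, mul_assoc, T_pow] at h
        rw [← h, ← Int.not_even_iff_odd] at ha
        exact ha ⟨2 ^ d * syr N, by rw [pow_succ]; ring⟩
      · obtain ⟨d, rfl⟩ : ∃ d, i = d + v := ⟨i - v, by omega⟩
        rw [Function.iterate_add_apply, T_pow] at h
        obtain ⟨k, hk⟩ := ih d (by omega) (syr N) hodd h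
        exact ⟨k + 1, by rw [Function.iterate_succ_apply]; exact hk⟩

/-- negative odd integers, Syracuse map -/
theorem neg_syr (h : FINo) : ∃ c : ℝ, 0 < c ∧ ∀ a : ℤ, a < 0 → Odd a → ¬ (3 : ℤ) ∣ a → ∀ x : ℝ, |(a : ℝ)| ≤ x →
    c * x / |(a : ℝ)| ≤ (({N : ℤ | N < 0 ∧ Odd N ∧ -x ≤ (N : ℝ) ∧ ∃ k : ℕ, syr^[k] N = a}.ncard : ℕ) : ℝ) := by
  obtain ⟨c, hc, H⟩ := h
  refine ⟨c, hc, fun a ha ho h3 x hx => ?_⟩
  have h1 := H a (Int.odd_iff.mp ho) h3 x hx
  refine le_trans h1 ?_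
  have hfin : {N : ℤ | N < 0 ∧ Odd N ∧ -x ≤ (N : ℝ) ∧ ∃ k : ℕ, syr^[k] N = a}.Finite := by
    apply Set.Finite.subset (Set.finite_Icc ⌈-x⌉ 0)
    rintro n ⟨h1, _, h3, _⟩
    exact ⟨Int.ceil_le.mpr h3, h1.le⟩
  have h2 : {N : ℤ | |(N : ℝ)| ≤ x ∧ N % 2 = 1 ∧ ∃ k : ℕ, T^[k] N = a}.ncard ≤
      {N : ℤ | N < 0 ∧ Odd N ∧ -x ≤ (N : ℝ) ∧ ∃ k : ℕ, syr^[k] N = a}.ncard := by
    apply Set.ncard_le_ncard _ hfin
    rintro N ⟨a1, a2, k, a3⟩
    have hNo : Odd N := Int.odd_iff.mpr a2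
    rw [abs_le] at a1
    exact ⟨sign_neg a3 ha, hNo, a1.1, syr_of_T ho k N hNo a3⟩
  exact_mod_cast h2

theorem mem_iter {S : Set ℤ} (hS : SInv S) : ∀ (k : ℕ) (N : ℤ), N < 0 → Odd N → syr^[k] N ∈ S → N ∈ S := by
  intro k
  induction k with
  | zero => intro N _ _ h; exact h
  | succ k ih =>
    intro N h0 ho h
    rw [Function.iterate_succ_apply] at h
    obtain ⟨_, _, ho'⟩ := syr_spec ho
    exact (hS N h0 ho).mpr (ih _ (syr_neg h0 ho) ho' h)

/-- **positive density** of the invariant sets of negative odd integers -/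
theorem class_dens (h : FINo) : ∃ c : ℝ, 0 < c ∧ ∀ S : Set ℤ, SInv S → ∀ a : ℤ, a ∈ S → a < 0 → Odd a →
    ∃ d : ℝ, c / |(a : ℝ)| ≤ d ∧ Tendsto (fun x : ℝ => ((cS S x : ℕ) : ℝ) / x) atTop (𝓝 d) := by
  obtain ⟨c, hc, H⟩ := neg_syr h
  refine ⟨c / 2, by positivity, fun S hS a haS ha ho => ?_⟩
  obtain ⟨d, hd⟩ := dens_exists hS
  refine ⟨d, ?_, hd⟩
  have hb0 : a ≠ 0 := by omega
  have hapos : 0 < |(a : ℝ)| := by
    have : (1 : ℝ) ≤ |(a : ℝ)| := by exact_mod_cast Int.one_le_abs hb0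
    linarith
  -- an element of the class that is prime to three
  obtain ⟨b, hbS, hb, hbo, hb3, hba⟩ : ∃ b : ℤ, b ∈ S ∧ b < 0 ∧ Odd b ∧ ¬ (3 : ℤ) ∣ b ∧ |b| ≤ 2 * |a| := by
    by_cases h3 : (3 : ℤ) ∣ a
    · obtain ⟨v, hv, ho'⟩ := syr_spec ho
      refine ⟨syr a, (hS a ha ho).mp haS, syr_neg ha ho, ho', ?_, ?_⟩
      · rintro ⟨q, hq⟩
        rw [hq] at hv
        obtain ⟨p, hp⟩ := h3
        have : (3 : ℤ) * (2 ^ (v + 1) * q - 3 * p) = 1 := by rw [hp] at hv; linarith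
        omega
      · have hn := syr_neg ha ho
        have h1 : (2 : ℤ) ≤ 2 ^ (v + 1) := by
          calc (2 : ℤ) = 2 ^ 1 := by norm_num
            _ ≤ _ := pow_le_pow_right₀ (by norm_num) (by omega)
        rw [abs_of_neg hn, abs_of_neg ha]
        nlinarith
    · exact ⟨a, haS, ha, ho, h3, by have := abs_nonneg a; linarith⟩
  have hbne : b ≠ 0 := by omega
  have hbpos : 0 < |(b : ℝ)| := by
    have : (1 : ℝ) ≤ |(b : ℝ)| := by exact_mod_cast Int.one_le_abs hbne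
    linarith
  have hba' : |(b : ℝ)| ≤ 2 * |(a : ℝ)| := by exact_mod_cast hba
  apply ge_of_tendsto hd
  filter_upwards [eventually_ge_atTop |(b : ℝ)|] with x hx
  have hx0 : 0 < x := lt_of_lt_of_le hbpos hx
  have h1 := H b hb hbo hb3 x hx
  have h2 : {N : ℤ | N < 0 ∧ Odd N ∧ -x ≤ (N : ℝ) ∧ ∃ k : ℕ, syr^[k] N = b}.ncard ≤ cS S x := by
    unfold cS
    apply Set.ncard_le_ncard _ (cS_fin S x)
    rintro N ⟨a1, a2, a3, k, a4⟩
    exact ⟨mem_iter hS k N a1 a2 (by rw [a4]; exact hbS), a1, a2, a3⟩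
  have h2' : (({N : ℤ | N < 0 ∧ Odd N ∧ -x ≤ (N : ℝ) ∧ ∃ k : ℕ, syr^[k] N = b}.ncard : ℕ) : ℝ) ≤ ((cS S x : ℕ) : ℝ) := by
    exact_mod_cast h2
  rw [le_div_iff₀ hx0]
  refine le_trans ?_ (le_trans h1 h2')
  rw [div_mul_eq_mul_div, div_le_div_iff₀ hapos hbpos]
  calc c / 2 * x * |(b : ℝ)| ≤ c / 2 * x * (2 * |(a : ℝ)|) := by gcongr
    _ = c * x * |(a : ℝ)| := by ring

/-- from orbits of `T` to orbits of the `3x+1` map -/
theorem Co_of_T : ∀ (k n : ℕ), 1 ≤ n → ∃ j : ℕ, Co^[j] n = (T^[k] (n : ℤ)).toNat := by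
  intro k
  induction k with
  | zero => intro n _; exact ⟨0, by simp⟩
  | succ k ih =>
    intro n hn
    have hn' : (0 : ℤ) < n := by exact_mod_cast hn
    have hT := T_pos hn'
    obtain ⟨m, hm⟩ := Int.eq_ofNat_of_zero_le hT.le
    have hm1 : 1 ≤ m := by rw [hm] at hT; exact_mod_cast hT
    obtain ⟨j, hj⟩ := ih m hm1
    rcases par_cases (n : ℤ) with h | h
    · have h1 := T_even h
      refine ⟨j + 1, ?_⟩
      have h2 : Co n = m := by
        unfold Co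
        rw [if_pos (by omega)]
        omega
      rw [Function.iterate_succ_apply, h2, hj, Function.iterate_succ_apply, hm]
    · have h1 := T_odd h
      refine ⟨j + 2, ?_⟩
      have h2 : Co (Co n) = m := by
        have h3 : Co n = 3 * n + 1 := by unfold Co; rw [if_neg (by omega)]
        rw [h3]
        unfold Co
        rw [if_pos (by omega)]
        omega
      rw [Function.iterate_succ_apply, Function.iterate_succ_apply, h2, hj, Function.iterate_succ_apply, hm]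

/-- positive integers, `3x+1` map -/
theorem pos_Co (h : FINo) : ∃ c : ℝ, 0 < c ∧ ∀ a : ℕ, ¬ 3 ∣ a → ∀ x : ℝ, (a : ℝ) ≤ x →
    c * x / a ≤ (({n : ℕ | 1 ≤ n ∧ (n : ℝ) ≤ x ∧ ∃ k : ℕ, Co^[k] n = a}.ncard : ℕ) : ℝ) := by
  obtain ⟨c, hc, H⟩ := fin_all h
  refine ⟨c, hc, fun a h3 x hx => ?_⟩
  have ha0 : 0 < a := Nat.pos_of_ne_zero (fun h => h3 (h ▸ dvd_zero _))
  have hcast : |((a : ℤ) : ℝ)| = (a : ℝ) := by
    rw [Int.cast_natCast, abs_of_nonneg (Nat.cast_nonneg a)]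
  have h1 := H (a : ℤ) (by omega) x (by rw [hcast]; exact hx)
  rw [hcast] at h1
  refine le_trans h1 ?_
  have hfin : {n : ℕ | 1 ≤ n ∧ (n : ℝ) ≤ x ∧ ∃ k : ℕ, Co^[k] n = a}.Finite := by
    apply Set.Finite.subset (Set.finite_Iic ⌊x⌋₊)
    rintro n ⟨-, h, -⟩
    exact Nat.le_floor h
  have h2 : {N : ℤ | |(N : ℝ)| ≤ x ∧ ∃ k : ℕ, T^[k] N = (a : ℤ)}.ncard ≤
      {n : ℕ | 1 ≤ n ∧ (n : ℝ) ≤ x ∧ ∃ k : ℕ, Co^[k] n = a}.ncard := by
    apply Set.ncard_le_ncard_of_injOn Int.toNat _ _ hfin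
    · rintro N ⟨a1, k, a2⟩
      have hN := sign_pos a2 (by exact_mod_cast ha0)
      obtain ⟨n, rfl⟩ := Int.eq_ofNat_of_zero_le hN.le
      obtain ⟨j, hj⟩ := Co_of_T k n (by exact_mod_cast hN)
      rw [Int.toNat_natCast]
      refine ⟨by exact_mod_cast hN, ?_, j, ?_⟩
      · rw [Int.cast_natCast, abs_of_nonneg (Nat.cast_nonneg n)] at a1
        exact a1
      · rw [hj, a2, Int.toNat_natCast]
    · rintro N ⟨a1, k, a2⟩ M ⟨b1, l, b2⟩ hNM
      have hN := sign_pos a2 (by exact_mod_cast ha0)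
      have hM := sign_pos b2 (by exact_mod_cast ha0)
      omega
  exact_mod_cast h2

/-- sets invariant above a bound -/
theorem psi_invY {S : Set ℕ} {Y : ℕ} (hS : ∀ n : ℕ, Y < n → (n ∈ S ↔ Co n ∈ S)) : Inv (psi S) Y := by
  classical
  refine ⟨fun n => ?_, fun n => ?_, fun n hn => ?_⟩
  · unfold psi; split_ifs <;> norm_num
  · unfold psi; split_ifs <;> norm_num
  · unfold psi
    apply if_congr _ rfl rfl
    rw [T_pos_iff]
    apply and_congr_right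
    intro h1
    have hnY : Y < n.toNat := by
      have h2 : (Y : ℝ) < ((n.toNat : ℕ) : ℝ) := by
        have h3 : ((n.toNat : ℕ) : ℤ) = n := Int.toNat_of_nonneg h1.le
        have h4 : ((n.toNat : ℕ) : ℝ) = (n : ℝ) := by exact_mod_cast congrArg (Int.cast : ℤ → ℝ) h3
        rw [h4, ← abs_of_pos (show (0 : ℝ) < (n : ℝ) by exact_mod_cast h1)]
        exact hn
      exact_mod_cast h2
    rcases par_cases n with h | h
    · have h3 := T_even h
      have h4 : Co n.toNat = (T n).toNat := by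
        unfold Co
        rw [if_pos (by omega)]
        omega
      rw [hS _ hnY, h4]
    · have h3 := T_odd h
      have h5 : Co n.toNat = 3 * n.toNat + 1 := by unfold Co; rw [if_neg (by omega)]
      have h4 : Co (Co n.toNat) = (T n).toNat := by
        rw [h5]
        unfold Co
        rw [if_pos (by omega)]
        omega
      have h6 : Y < Co n.toNat := by omega
      rw [hS _ hnY, hS _ h6, h4]

/-- existence of the natural density, sets invariant above a bound -/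
theorem pS_densY {S : Set ℕ} {Y : ℕ} (hS : ∀ n : ℕ, Y < n → (n ∈ S ↔ Co n ∈ S)) :
    ∃ d : ℝ, Tendsto (fun x : ℝ => ((pS S x : ℕ) : ℝ) / x) atTop (𝓝 d) := by
  obtain ⟨d, hd⟩ := nat_dens (Nat.cast_nonneg Y) (psi_invY hS)
  refine ⟨d, ?_⟩
  have h0 : Tendsto (fun x : ℝ => ⌈x⌉₊ - 1) atTop atTop := by
    have h1 : Tendsto (fun x : ℝ => ⌈x⌉₊) atTop atTop := tendsto_nat_ceil_atTop
    exact (tendsto_sub_atTop_nat 1).comp h1
  have h1 := hd.comp h0
  have h2 : Tendsto (fun x : ℝ => ((⌈x⌉₊ - 1 : ℕ) : ℝ) / x) atTop (𝓝 1) := by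
    have h3 : Tendsto (fun x : ℝ => 1 - 1 / x) atTop (𝓝 (1 - 0)) := by
      apply Tendsto.const_sub
      exact (tendsto_inv_atTop_zero (𝕜 := ℝ)).congr (fun x => (one_div x).symm)
    rw [sub_zero] at h3
    apply tendsto_of_tendsto_of_tendsto_of_le_of_le' h3 tendsto_const_nhds
    · filter_upwards [eventually_gt_atTop 0] with x hx
      obtain ⟨m, hm1, hm2, hm3⟩ := exists_below hx
      rw [← hm3, le_div_iff₀ hx, sub_mul, one_mul, one_div_mul_cancel hx.ne']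
      linarith
    · filter_upwards [eventually_gt_atTop 0] with x hx
      obtain ⟨m, hm1, hm2, hm3⟩ := exists_below hx
      rw [← hm3, div_le_one hx]
      exact hm1.le
  have h3 := h1.mul h2
  rw [mul_one] at h3
  refine h3.congr' ?_
  filter_upwards [eventually_gt_atTop 1] with x hx
  obtain ⟨m, hm1, hm2, hm3⟩ := exists_below (show 0 < x by linarith)
  have hm0 : (m : ℝ) ≠ 0 := by
    have : 0 < (m : ℝ) := by linarith
    exact this.ne'
  simp only [Function.comp]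
  rw [← hm3, pS_eq S hm1 hm2]
  field_simp

/-- **positive density** of the set of predecessors of every natural number prime to three -/
theorem pred_dens (h : FINo) : ∃ c : ℝ, 0 < c ∧ ∀ a : ℕ, ¬ 3 ∣ a → ∃ d : ℝ, c / a ≤ d ∧
    Tendsto (fun x : ℝ => (Nat.card {n : ℕ // 1 ≤ n ∧ (n : ℝ) < x ∧ ∃ k : ℕ, Co^[k] n = a} : ℝ) / x) atTop (𝓝 d) := by
  obtain ⟨c, hc, H⟩ := pos_Co h
  refine ⟨c / 2, by positivity, fun a h3 => ?_⟩
  have ha0 : 0 < a := Nat.pos_of_ne_zero (fun h => h3 (h ▸ dvd_zero _))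
  have ha0' : (0 : ℝ) < a := by exact_mod_cast ha0
  have ha1 : (1 : ℝ) ≤ a := by exact_mod_cast ha0
  obtain ⟨S, hSdef⟩ : ∃ S : Set ℕ, S = {n : ℕ | ∃ k : ℕ, Co^[k] n = a} := ⟨_, rfl⟩
  have hinv : ∀ n : ℕ, a < n → (n ∈ S ↔ Co n ∈ S) := by
    intro n hn
    rw [hSdef]
    constructor
    · rintro ⟨k, hk⟩
      rcases k with _ | k
      · exfalso
        have : n = a := hk
        omega
      · exact ⟨k, by rw [← hk, Function.iterate_succ_apply]⟩
    · rintro ⟨k, hk⟩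
      exact ⟨k + 1, by rw [Function.iterate_succ_apply]; exact hk⟩
  obtain ⟨d, hd⟩ := pS_densY hinv
  refine ⟨d, ?_, ?_⟩
  · apply ge_of_tendsto hd
    filter_upwards [eventually_ge_atTop ((a : ℝ) + 1), eventually_ge_atTop 2] with x hx hx2
    have hx0 : 0 < x := by linarith
    have h1 := H a h3 (x - 1) (by linarith)
    have h2 : {n : ℕ | 1 ≤ n ∧ (n : ℝ) ≤ x - 1 ∧ ∃ k : ℕ, Co^[k] n = a}.ncard ≤ pS S x := by
      show _ ≤ {n : ℕ | 1 ≤ n ∧ (n : ℝ) < x ∧ n ∈ S}.ncard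
      apply Set.ncard_le_ncard
      · rintro n ⟨a1, a2, a3⟩
        refine ⟨a1, by linarith, ?_⟩
        rw [hSdef]
        exact a3
      · apply Set.Finite.subset (Set.finite_Iic ⌊x⌋₊)
        rintro n ⟨-, h, -⟩
        exact Nat.le_floor h.le
    have h2' : (({n : ℕ | 1 ≤ n ∧ (n : ℝ) ≤ x - 1 ∧ ∃ k : ℕ, Co^[k] n = a}.ncard : ℕ) : ℝ) ≤ ((pS S x : ℕ) : ℝ) := by
      exact_mod_cast h2
    rw [le_div_iff₀ hx0]
    refine le_trans ?_ (le_trans h1 h2')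
    rw [div_mul_eq_mul_div, div_le_div_iff_of_pos_right ha0']
    nlinarith
  · refine hd.congr (fun x => ?_)
    have e : pS S x = Nat.card {n : ℕ // 1 ≤ n ∧ (n : ℝ) < x ∧ ∃ k : ℕ, Co^[k] n = a} := by
      unfold pS
      rw [hSdef]
      rfl
    rw [e]

end Pool.Agent.Helper3.PD
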