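import Pool.Agent.Helper3.PD.Trans
import Pool.Agent.Helper1.PD.Stmts

/-! From a residue class to all targets. -/

namespace Pool.Agent.Helper3.PD

open Pool.Agent.Helper3.ND Pool.Agent.Helper3.TD Pool.Agent.Helper1.PD

/-- many odd predecessors of all `X` in a residue class -/
def ST_FINo : Prop := ∃ K0 : ℕ, ∃ c0 : ℤ, ∃ B R1 : ℕ, ∃ c : ℝ, 0 < c ∧ ∀ X : ℤ, (3 : ℤ) ^ K0 ∣ X - c0 → (B : ℤ) ≤ |X| →
  (∀ j : ℕ, 1 ≤ j → T^[j] X ≠ X) → ∀ R : ℝ, (R1 : ℝ) ≤ R →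
    c * R ≤ (Nat.card {N : ℤ // |(N : ℝ)| ≤ R * |(X : ℝ)| ∧ N % 2 = 1 ∧ ∃ j : ℕ, T^[j] N = X} : ℝ)

theorem fino_of (hF : ST_FINo) (hR : ST_REACH) : FINo := by
  obtain ⟨K0, c0, B, R1, c, hc, H⟩ := hF
  obtain ⟨E, hE⟩ := hR K0 c0 (max B 1)
  have hE2 : (0 : ℝ) < 2 ^ E := by positivity
  have hR1 : (0 : ℝ) < (R1 : ℝ) + 1 := by positivity
  refine ⟨min (c / 2 ^ E) (1 / (((R1 : ℝ) + 1) * 2 ^ E)), by positivity, fun a ha2 h3 x hx => ?_⟩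
  have ha0 : a ≠ 0 := by rintro rfl; exact h3 (dvd_zero _)
  have ha1 : (1 : ℝ) ≤ |(a : ℝ)| := by exact_mod_cast Int.one_le_abs ha0
  have hapos : 0 < |(a : ℝ)| := by linarith
  obtain ⟨X, e, he, hXa, hXc, hXB, hXle, hXp⟩ := hE a h3
  have hXB' : (B : ℤ) ≤ |X| := le_trans (by exact_mod_cast le_max_left B 1) hXB
  have hX1 : (1 : ℤ) ≤ |X| := le_trans (by exact_mod_cast le_max_right B 1) hXB
  have hX1' : (1 : ℝ) ≤ |(X : ℝ)| := by exact_mod_cast hX1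
  have hXpos : 0 < |(X : ℝ)| := by linarith
  have hXle' : |(X : ℝ)| ≤ 2 ^ E * |(a : ℝ)| := by
    have h1 : |(X : ℝ)| ≤ 2 ^ e * |(a : ℝ)| := by exact_mod_cast hXle
    refine le_trans h1 ?_
    gcongr
    · norm_num
  have hx0 : 0 ≤ x := by linarith
  by_cases hbx : (R1 : ℝ) ≤ x / |(X : ℝ)|
  · have h1 := H X hXc hXB' hXp (x / |(X : ℝ)|) hbx
    have e1 : x / |(X : ℝ)| * |(X : ℝ)| = x := by field_simp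
    rw [e1] at h1
    have h2 : {N : ℤ | |(N : ℝ)| ≤ x ∧ N % 2 = 1 ∧ ∃ j : ℕ, T^[j] N = X}.ncard ≤
        {N : ℤ | |(N : ℝ)| ≤ x ∧ N % 2 = 1 ∧ ∃ k : ℕ, T^[k] N = a}.ncard := by
      apply Set.ncard_le_ncard _ (fin_abs _ x)
      rintro N ⟨a1, a2, k, a3⟩
      exact ⟨a1, a2, e + k, by rw [Function.iterate_add_apply, a3, hXa]⟩
    have h2' : (Nat.card {N : ℤ // |(N : ℝ)| ≤ x ∧ N % 2 = 1 ∧ ∃ j : ℕ, T^[j] N = X} : ℝ) ≤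
        (({N : ℤ | |(N : ℝ)| ≤ x ∧ N % 2 = 1 ∧ ∃ k : ℕ, T^[k] N = a}.ncard : ℕ) : ℝ) := by
      have h3 : Nat.card {N : ℤ // |(N : ℝ)| ≤ x ∧ N % 2 = 1 ∧ ∃ j : ℕ, T^[j] N = X} =
        {N : ℤ | |(N : ℝ)| ≤ x ∧ N % 2 = 1 ∧ ∃ j : ℕ, T^[j] N = X}.ncard := rfl
      rw [h3]
      exact_mod_cast h2
    refine le_trans ?_ (le_trans h1 h2')
    have h4 : min (c / 2 ^ E) (1 / (((R1 : ℝ) + 1) * 2 ^ E)) ≤ c / 2 ^ E := min_le_left _ _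
    calc min (c / 2 ^ E) (1 / (((R1 : ℝ) + 1) * 2 ^ E)) * x / |(a : ℝ)| ≤ (c / 2 ^ E) * x / |(a : ℝ)| := by gcongr
      _ = c * (x / (2 ^ E * |(a : ℝ)|)) := by field_simp
      _ ≤ c * (x / |(X : ℝ)|) := by gcongr
  · have h1 : 1 ≤ {N : ℤ | |(N : ℝ)| ≤ x ∧ N % 2 = 1 ∧ ∃ k : ℕ, T^[k] N = a}.ncard :=
      (Set.ncard_pos (fin_abs _ x)).mpr ⟨a, hx, ha2, 0, rfl⟩
    have h1' : (1 : ℝ) ≤ (({N : ℤ | |(N : ℝ)| ≤ x ∧ N % 2 = 1 ∧ ∃ k : ℕ, T^[k] N = a}.ncard : ℕ) : ℝ) := by exact_mod_cast h1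
    refine le_trans ?_ h1'
    rw [div_le_one hapos]
    have h4 : min (c / 2 ^ E) (1 / (((R1 : ℝ) + 1) * 2 ^ E)) ≤ 1 / (((R1 : ℝ) + 1) * 2 ^ E) := min_le_right _ _
    have h5 : x ≤ ((R1 : ℝ) + 1) * (2 ^ E * |(a : ℝ)|) := by
      have h6 := (not_le.mp hbx).le
      rw [div_le_iff₀ hXpos] at h6
      refine le_trans h6 ?_
      gcongr
      linarith
    calc min (c / 2 ^ E) (1 / (((R1 : ℝ) + 1) * 2 ^ E)) * x ≤ 1 / (((R1 : ℝ) + 1) * 2 ^ E) * (((R1 : ℝ) + 1) * (2 ^ E * |(a : ℝ)|)) := by gcongr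
      _ = |(a : ℝ)| := by field_simp

end Pool.Agent.Helper3.PD
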