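import Pool.Agent.Helper1.PD.Iter
import Pool.Agent.Helper13.PD.Fin
import Pool.Agent.Helper25.PD.Reach
import Pool.Agent.Helper3.PD.OddB
import Pool.Agent.Helper3.PD.Typ

/-! The uniform linear lower bound for odd predecessors. -/

namespace Pool.Agent.Helper3.PD

open Pool.Agent.Helper3.ND Pool.Agent.Helper3.TD Pool.Agent.Helper1.PD Pool.Agent.Helper13.PD

theorem pt_loc_odd : PT_LOC (fun r => r % 2 = 1) (1 / 4) EEo := by
  refine ⟨⟨0, fun t _ N => EEo_nonneg t N⟩, ⟨200000, fun t ht => EEo_per t ht⟩, ?_, ⟨200000, ?_⟩⟩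
  · obtain ⟨C, _, T0, H⟩ := EEo_av 2
    exact ⟨C, T0, fun t ht => H t ht⟩
  · intro t ht ρ h1 h2 N
    exact loc_lower_odd t ht ρ h1 h2 N

/-- **The uniform linear lower bound** for odd predecessors -/
theorem fino : FINo := fino_of (st_fino (st_iter typ_J st_mix Gd_mass) (le_refl _) pt_loc_odd) Pool.Agent.Helper25.PD.reach

end Pool.Agent.Helper3.PD
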