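import Pool.Agent.Helper75.PD.LocA

/-! Local counting of odd preimages: the error function. -/

namespace Pool.Agent.Helper3.PD

open Pool.Agent.Helper3.ND Pool.Agent.Helper3.TD Pool.Agent.Helper1.PD Pool.Agent.Helper75.PD

theorem even_step (n : ℕ) (q : ℤ) : T^[n + 1] (2 * q) = T^[n] q ∧ od (n + 1) (2 * q) = od n q := by
  have h : (2 * q) % 2 = 0 := by omega
  have h2 : T (2 * q) = q := by
    have := T_even h
    omega
  refine ⟨?_, ?_⟩
  · rw [Function.iterate_succ_apply, h2]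
  · rw [od_succ_even h, h2]

theorem D_even_gen (m n k : ℕ) (N : ℤ) (P : ℕ → Prop) (hP0 : ∀ q, P (0 + 2 * q)) (hP1 : ∀ q, ¬ P (1 + 2 * q)) :
    D m (n + 1) k P N = (1 / 2) * D m n k (fun _ => True) N := by
  classical
  unfold D
  have h0 := sum_range_pow_add 1 n (fun r : ℕ => if od (n + 1) (r : ℤ) = k ∧ P r ∧ (3 : ℤ) ^ m ∣ N - T^[n + 1] (r : ℤ) then (3 : ℝ) ^ m / 2 ^ (n + 1) else 0)
  rw [add_comm 1 n] at h0
  refine h0.trans ?_
  rw [Finset.sum_comm, Finset.mul_sum]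
  apply Finset.sum_congr rfl
  intro r2 _
  have e2 : (2 : ℕ) ^ 1 = 2 := rfl
  rw [e2, Finset.sum_range_succ, Finset.sum_range_succ, Finset.sum_range_zero, zero_add]
  have h1 : ¬ (od (n + 1) ((1 + 2 * r2 : ℕ) : ℤ) = k ∧ P (1 + 2 * r2) ∧ (3 : ℤ) ^ m ∣ N - T^[n + 1] ((1 + 2 * r2 : ℕ) : ℤ)) := by
    rintro ⟨_, h, _⟩
    exact hP1 _ h
  rw [if_neg h1, add_zero]
  have h2 : ((0 + 2 * r2 : ℕ) : ℤ) = 2 * (r2 : ℤ) := by push_cast; ring
  obtain ⟨h3, h4⟩ := even_step n (r2 : ℤ)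
  by_cases h5 : od n (r2 : ℤ) = k ∧ (3 : ℤ) ^ m ∣ N - T^[n] (r2 : ℤ)
  · rw [if_pos (show od n (r2 : ℤ) = k ∧ True ∧ (3 : ℤ) ^ m ∣ N - T^[n] (r2 : ℤ) from ⟨h5.1, trivial, h5.2⟩), if_pos]
    · rw [pow_succ]
      field_simp
    · rw [h2, h3, h4]
      exact ⟨h5.1, hP0 _, h5.2⟩
  · rw [if_neg (show ¬ (od n (r2 : ℤ) = k ∧ True ∧ (3 : ℤ) ^ m ∣ N - T^[n] (r2 : ℤ)) from fun h => h5 ⟨h.1, h.2.2⟩), if_neg, mul_zero]
    rw [h2, h3, h4]
    exact fun h => h5 ⟨h.1, h.2.2⟩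

/-- even residues: one step back -/
theorem D_even (m n k : ℕ) (N : ℤ) :
    D m (n + 1) k (fun r => ¬ r % 2 = 1) N = (1 / 2) * D m n k (fun _ => True) N := by
  apply D_even_gen
  · intro q
    omega
  · intro q
    omega

/-- the density of odd residues -/
theorem D_odd (m n k : ℕ) (N : ℤ) :
    D m (n + 1) k (fun r => r % 2 = 1) N = D m (n + 1) k (fun _ => True) N - (1 / 2) * D m n k (fun _ => True) N := by
  have h := D_split m (n + 1) k (fun r => r % 2 = 1) N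
  rw [D_even] at h
  linarith

/-- the error function for odd residues -/
noncomputable def EEo (t : ℕ) (N : ℤ) : ℝ :=
  ∑ n ∈ Finset.Icc (t / 200) (t / 5),
    (∑ k ∈ KS n (mm t), |D k n k (fun r => r % 2 = 1) N - D (mm t) n k (fun r => r % 2 = 1) N| +
      ∑ k ∈ Finset.range (n + 1) \ KS n (mm t), D (mm t) n k (fun _ => True) N)

theorem EEo_nonneg (t : ℕ) (N : ℤ) : 0 ≤ EEo t N := by
  unfold EEo
  apply Finset.sum_nonneg
  intro n _
  apply add_nonneg
  · exact Finset.sum_nonneg (fun k _ => abs_nonneg _)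
  · exact Finset.sum_nonneg (fun k _ => D_nonneg _ _ _ _ _)

theorem per1o {t n k : ℕ} (ht : 200000 ≤ t) (hn : n ∈ Finset.Icc (t / 200) (t / 5)) (hk : k ∈ KS n (mm t)) (P : ℕ → Prop) (j : ℕ) :
    k ≤ t / 8 ∧ Per k (fun N => |D k j k P N - D (mm t) j k P N|) := by
  rw [Finset.mem_Icc] at hn
  have h1 := KS_le (show 10 ^ 3 ≤ n by omega) hk
  obtain ⟨_, h2, _⟩ := mem_KS.mp hk
  refine ⟨by omega, ?_⟩
  intro x
  simp only
  rw [D_per k j k _ x, (D_per (mm t) j k P).le h2 x]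

theorem EEo_per : ∀ t, 200000 ≤ t → Per (t / 8) (EEo t) := by
  intro t ht x
  unfold EEo
  apply Finset.sum_congr rfl
  intro n hn
  congr 1
  · apply Finset.sum_congr rfl
    intro k hk
    obtain ⟨h1, h2⟩ := per1o ht hn hk (fun r => r % 2 = 1) n
    exact h2.le h1 x
  · apply Finset.sum_congr rfl
    intro k _
    exact (D_per (mm t) n k (fun _ => True)).le (show mm t ≤ t / 8 by unfold mm; omega) x

/-- comparison with the error function for all residues -/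
theorem EEo_le {t : ℕ} (ht : 200000 ≤ t) (N : ℤ) : EEo t N ≤ EE t N + (1 / 2) * ∑ n ∈ Finset.Icc (t / 200) (t / 5),
    ∑ k ∈ KS n (mm t), |D k (n - 1) k (fun _ => True) N - D (mm t) (n - 1) k (fun _ => True) N| := by
  unfold EEo EE
  rw [Finset.mul_sum, ← Finset.sum_add_distrib]
  apply Finset.sum_le_sum
  intro n hn
  rw [Finset.mem_Icc] at hn
  rw [Finset.mul_sum]
  have h1 : ∑ k ∈ KS n (mm t), |D k n k (fun r => r % 2 = 1) N - D (mm t) n k (fun r => r % 2 = 1) N| ≤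
      ∑ k ∈ KS n (mm t), |D k n k (fun _ => True) N - D (mm t) n k (fun _ => True) N| +
      ∑ k ∈ KS n (mm t), 1 / 2 * |D k (n - 1) k (fun _ => True) N - D (mm t) (n - 1) k (fun _ => True) N| := by
    rw [← Finset.sum_add_distrib]
    apply Finset.sum_le_sum
    intro k _
    obtain ⟨j, rfl⟩ : ∃ j, n = j + 1 := ⟨n - 1, by omega⟩
    rw [D_odd, D_odd, Nat.add_sub_cancel]
    have e : D k (j + 1) k (fun _ => True) N - 1 / 2 * D k j k (fun _ => True) N -
        (D (mm t) (j + 1) k (fun _ => True) N - 1 / 2 * D (mm t) j k (fun _ => True) N) =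
        (D k (j + 1) k (fun _ => True) N - D (mm t) (j + 1) k (fun _ => True) N) -
        1 / 2 * (D k j k (fun _ => True) N - D (mm t) j k (fun _ => True) N) := by ring
    rw [e]
    refine le_trans (abs_sub _ _) ?_
    rw [abs_mul, abs_of_pos (show (0 : ℝ) < 1 / 2 by norm_num)]
  linarith

/-- averages at the previous depth -/
theorem prev_av (q : ℕ) : ∃ C : ℝ, 0 < C ∧ ∃ T0 : ℕ, ∀ t, T0 ≤ t → ∀ n ∈ Finset.Icc (t / 200) (t / 5),
    ∑ k ∈ KS n (mm t), Av (t / 8) (fun N => |D k (n - 1) k (fun _ => True) N - D (mm t) (n - 1) k (fun _ => True) N|) ≤ C / (t : ℝ) ^ (q + 1) := by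
  obtain ⟨C, hC, n0, hn0, H⟩ := mixingK (q + 1)
  obtain ⟨F, hF⟩ : ∃ F : ℝ, F = (Nat.factorial (10 * (q + 1)) : ℝ) := ⟨_, rfl⟩
  have hF0 : 0 < F := by rw [hF]; positivity
  refine ⟨C * 4000 ^ (q + 2) + 4 * F * 400 ^ (q + 1), by positivity, 2000 * n0 + 400000, ?_⟩
  intro t ht n hn
  have hn' := hn
  rw [Finset.mem_Icc] at hn
  have ht0 : (0 : ℝ) < t := by
    have : 0 < t := by omega
    exact_mod_cast this
  have hm : (t : ℝ) / 4000 ≤ (mm t : ℕ) := by
    have : t ≤ 4000 * mm t := by unfold mm; omega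
    have : (t : ℝ) ≤ 4000 * (mm t : ℕ) := by exact_mod_cast this
    linarith
  have hm1 : n0 ≤ mm t := by unfold mm; omega
  obtain ⟨j, hj⟩ : ∃ j, n = j + 1 := ⟨n - 1, by omega⟩
  subst hj
  rw [Nat.add_sub_cancel]
  have hn1 : (t : ℝ) / 400 ≤ j := by
    have : t ≤ 400 * j := by omega
    have : (t : ℝ) ≤ 400 * j := by exact_mod_cast this
    linarith
  have hn2 : (j : ℝ) ≤ t := by
    have : j ≤ t := by omega
    exact_mod_cast this
  have hn4 : (1 : ℝ) ≤ j := by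
    have : 1 ≤ j := by omega
    exact_mod_cast this
  classical
  have hpt : ∀ k ∈ KS (j + 1) (mm t), Av (t / 8) (fun N => |D k j k (fun _ => True) N - D (mm t) j k (fun _ => True) N|) =
      Av k (fun N => |D k j k (fun _ => True) N - D (mm t) j k (fun _ => True) N|) := by
    intro k hk
    obtain ⟨h1, h2⟩ := per1o (by omega) hn' hk (fun _ => True) j
    exact Av_le h2 h1
  rw [Finset.sum_congr rfl hpt]
  have hsplit : ∑ k ∈ KS (j + 1) (mm t), Av k (fun N => |D k j k (fun _ => True) N - D (mm t) j k (fun _ => True) N|) ≤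
      ∑ k ∈ KS j (mm t), Av k (fun N => |D k j k (fun _ => True) N - D (mm t) j k (fun _ => True) N|) +
      ∑ k ∈ KS (j + 1) (mm t) \ KS j (mm t), 2 * mass j k (fun _ => True) := by
    have hA : ∀ k, 0 ≤ Av k (fun N => |D k j k (fun _ => True) N - D (mm t) j k (fun _ => True) N|) :=
      fun k => Av_nonneg (fun _ => abs_nonneg _)
    rw [← Finset.sum_inter_add_sum_sdiff (KS (j + 1) (mm t)) (KS j (mm t))]
    apply add_le_add
    · exact Finset.sum_le_sum_of_subset_of_nonneg Finset.inter_subset_right (fun k _ _ => hA k)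
    · apply Finset.sum_le_sum
      intro k hk
      rw [Finset.mem_sdiff] at hk
      have h1 : Av k (fun N => |D k j k (fun _ => True) N - D (mm t) j k (fun _ => True) N|) ≤
          Av k (fun N => D k j k (fun _ => True) N + D (mm t) j k (fun _ => True) N) := by
        apply Av_mono
        intro N
        have a1 := D_nonneg k j k (fun _ => True) N
        have a2 := D_nonneg (mm t) j k (fun _ => True) N
        rw [abs_le]
        constructor <;> linarith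
      refine le_trans h1 ?_
      rw [Av_add, Av_D, Av_le (D_per (mm t) j k (fun _ => True)) (mem_KS.mp hk.1).2.1, Av_D]
      linarith
  have h1 := H j (mm t) hm1 (by unfold mm; omega)
  have h2 : C * (j : ℝ) ^ (1 / 20 : ℝ) / (mm t : ℝ) ^ (q + 1 + 1) ≤ C * 4000 ^ (q + 2) / (t : ℝ) ^ (q + 1) := by
    have e1 : (j : ℝ) ^ (1 / 20 : ℝ) ≤ t := by
      calc (j : ℝ) ^ (1 / 20 : ℝ) ≤ (j : ℝ) ^ (1 : ℝ) := Real.rpow_le_rpow_of_exponent_le hn4 (by norm_num)
        _ = j := Real.rpow_one _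
        _ ≤ t := hn2
    calc C * (j : ℝ) ^ (1 / 20 : ℝ) / (mm t : ℝ) ^ (q + 1 + 1) ≤ C * t / ((t : ℝ) / 4000) ^ (q + 1 + 1) := by gcongr
      _ = _ := by
        rw [div_pow, pow_succ (t : ℝ) (q + 1)]
        field_simp
  have h3 : ∑ k ∈ KS (j + 1) (mm t) \ KS j (mm t), 2 * mass j k (fun _ => True) ≤ 4 * F * 400 ^ (q + 1) / (t : ℝ) ^ (q + 1) := by
    rw [← Finset.mul_sum]
    have e0 := card_out (m := mm t) (show 10 ^ 3 ≤ j by omega) (by unfold mm; omega) (KS (j + 1) (mm t) \ KS j (mm t)) (fun k hk => (Finset.mem_sdiff.mp hk).2)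
    have e1 := exp_tailK (q + 1) hn4
    rw [← hF] at e1
    have e2 : Real.exp (-((j : ℝ) ^ (1 / 10 : ℝ))) ≤ F * 400 ^ (q + 1) / (t : ℝ) ^ (q + 1) := by
      calc Real.exp (-((j : ℝ) ^ (1 / 10 : ℝ))) ≤ F / (j : ℝ) ^ (q + 1) := e1
        _ ≤ F / ((t : ℝ) / 400) ^ (q + 1) := by gcongr
        _ = _ := by
          rw [div_pow]
          field_simp
    have e3 := le_trans (mass_set j (KS (j + 1) (mm t) \ KS j (mm t)) (fun _ => True)) e0
    have e4 : 4 * F * 400 ^ (q + 1) / (t : ℝ) ^ (q + 1) = 4 * (F * 400 ^ (q + 1) / (t : ℝ) ^ (q + 1)) := by ring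
    rw [e4]
    linarith
  calc _ ≤ _ := hsplit
    _ ≤ C * 4000 ^ (q + 2) / (t : ℝ) ^ (q + 1) + 4 * F * 400 ^ (q + 1) / (t : ℝ) ^ (q + 1) :=
        add_le_add (le_trans h1 h2) h3
    _ = _ := by ring

theorem EEo_av (q : ℕ) : ∃ C : ℝ, 0 < C ∧ ∃ T0 : ℕ, ∀ t, T0 ≤ t → Av (t / 8) (EEo t) ≤ C / (t : ℝ) ^ q := by
  obtain ⟨C1, hC1, T1, H1⟩ := EE_av q
  obtain ⟨C2, hC2, T2, H2⟩ := prev_av q
  refine ⟨C1 + C2, by positivity, T1 + T2 + 400000, ?_⟩
  intro t ht
  have ht0 : (0 : ℝ) < t := by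
    have : 0 < t := by omega
    exact_mod_cast this
  have h1 : Av (t / 8) (EEo t) ≤ Av (t / 8) (fun N => EE t N + (1 / 2) * ∑ n ∈ Finset.Icc (t / 200) (t / 5),
    ∑ k ∈ KS n (mm t), |D k (n - 1) k (fun _ => True) N - D (mm t) (n - 1) k (fun _ => True) N|) :=
    Av_mono (fun N => EEo_le (by omega) N)
  refine le_trans h1 ?_
  rw [Av_add (t / 8) (EE t) (fun N => (1 / 2) * ∑ n ∈ Finset.Icc (t / 200) (t / 5),
    ∑ k ∈ KS n (mm t), |D k (n - 1) k (fun _ => True) N - D (mm t) (n - 1) k (fun _ => True) N|),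
    Av_const_mul, Av_sum (t / 8) (Finset.Icc (t / 200) (t / 5)) (fun n N =>
    ∑ k ∈ KS n (mm t), |D k (n - 1) k (fun _ => True) N - D (mm t) (n - 1) k (fun _ => True) N|)]
  have h2 : ∑ n ∈ Finset.Icc (t / 200) (t / 5), Av (t / 8) (fun N =>
      ∑ k ∈ KS n (mm t), |D k (n - 1) k (fun _ => True) N - D (mm t) (n - 1) k (fun _ => True) N|) ≤ C2 / (t : ℝ) ^ q := by
    have h3 : ∀ n ∈ Finset.Icc (t / 200) (t / 5), Av (t / 8) (fun N =>
      ∑ k ∈ KS n (mm t), |D k (n - 1) k (fun _ => True) N - D (mm t) (n - 1) k (fun _ => True) N|) ≤ C2 / (t : ℝ) ^ (q + 1) := by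
      intro n hn
      rw [Av_sum (t / 8) (KS n (mm t)) (fun k N => |D k (n - 1) k (fun _ => True) N - D (mm t) (n - 1) k (fun _ => True) N|)]
      exact H2 t (by omega) n hn
    refine le_trans (Finset.sum_le_sum h3) ?_
    rw [Finset.sum_const, nsmul_eq_mul, Nat.card_Icc]
    have h4 : ((t / 5 + 1 - t / 200 : ℕ) : ℝ) ≤ t := by
      have : t / 5 + 1 - t / 200 ≤ t := by omega
      exact_mod_cast this
    calc ((t / 5 + 1 - t / 200 : ℕ) : ℝ) * (C2 / (t : ℝ) ^ (q + 1)) ≤ t * (C2 / (t : ℝ) ^ (q + 1)) := by gcongr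
      _ = _ := by
        field_simp
        ring
  have h5 := H1 t (by omega)
  have h6 : (C1 + C2) / (t : ℝ) ^ q = C1 / (t : ℝ) ^ q + C2 / (t : ℝ) ^ q := by ring
  have h7 : 0 ≤ C2 / (t : ℝ) ^ q := by positivity
  rw [h6]
  linarith

end Pool.Agent.Helper3.PD
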